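import Pool.Agent.MP_3a192b_co.HalfE

open Pool.Agent.MP_3a192b_co

/-- At the boundary value `c = 1 / 2` the exponent has exact order `ε ^ 2`. -/
theorem Pool.Agent.Results.MP_3a192b_co.HalfSharp.result (c ε : ℝ) (hε : 0 < ε)
    (hε1 : ε ≤ 1 / 2048) (hc1 : 1 / 2 - ε ≤ c) (hc2 : c ≤ 1 / 2) (n m : ℕ) (hn : 1 ≤ n)
    (hm : 1 ≤ m) :
    (1 / 4 : ℝ) * ((min m (2 ^ n) : ℕ) : ℝ) ^ (ε ^ 2 / 16) ≤ chiStar n m c ε ∧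
      (chiStar n m c ε : ℝ) ≤ 1 / ε ^ 4 * ((min m (2 ^ n) : ℕ) : ℝ) ^ (2 ^ 22 * ε ^ 2) :=
  Half.half_sharp hε hε1 hc1 hc2 hn hm
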