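import Pool.Agent.MP_3a192b_co.Final

open Pool.Agent.MP_3a192b_co

/-- Two-sided estimate of the logarithm of the extremal chromatic number, for all `n` and `m`. -/
theorem Pool.Agent.Results.MP_3a192b_co.LogGrowth.result (c : ℝ) (hc0 : 0 < c) (hc : c < 1 / 2) :
    ∃ a b ε₀ : ℝ, 0 < a ∧ 0 < b ∧ 0 < ε₀ ∧ ∀ ε : ℝ, 0 < ε → ε < ε₀ → ∃ C : ℝ, ∀ n m : ℕ,
      1 ≤ n → 1 ≤ m →
      a / Real.log (Real.log (1 / ε)) * min (ε * n) (Real.log m / Real.log (1 / ε)) - C ≤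
          Real.log (chiStar n m c ε) ∧
        Real.log (chiStar n m c ε) ≤ b * min (ε * n) (Real.log m / Real.log (1 / ε)) + C :=
  log_growth hc0 hc
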