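import Pool.Agent.MP_3a192b_co.Upper

open Pool.Agent.MP_3a192b_co

/-- Explicit polynomial upper bound whose exponent tends to zero with `ε`. -/
theorem Pool.Agent.Results.MP_3a192b_co.PolyUpper.result (c ε : ℝ) (hc : 0 < c) (hc1 : c < 1)
    (hε : 0 < ε) (hεc : ε ≤ c ^ 2) (n m : ℕ) :
    (chiStar n m c ε : ℝ) ≤
      4 / (c * (Real.log (1 / c) / Real.log (c / ε))) *
        ((min m (2 ^ n) : ℕ) : ℝ) ^ (Real.log (1 / c) / Real.log (c / ε)) :=
  chiStar_le hc hc1 hε hεc n m
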