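import Pool.Agent.MP_3a192b_co.HsH

open Pool.Agent.MP_3a192b_co.HS

/-- For families of `m` linear threshold sets in the cube of dimension `d` the logarithm of the
extremal chromatic number has exact order `min (d, log m / log L) / L`, `L = log (1 / ε)`. -/
theorem Pool.Agent.Results.MP_3a192b_co.Threshold.result (c : ℝ) (hc0 : 0 < c) (hc : c < 1 / 2) :
    ∃ a b ε₀ : ℝ, 0 < a ∧ 0 < b ∧ 0 < ε₀ ∧ ∀ ε : ℝ, 0 < ε → ε < ε₀ → ∃ C : ℝ, ∀ d m : ℕ, 1 ≤ m →
      a * (min (d : ℝ) (Real.log m / Real.log (Real.log (1 / ε))) / Real.log (1 / ε)) - C ≤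
          Real.log (chiCube d m c ε) ∧
        Real.log (chiCube d m c ε) ≤
          b * (min (d : ℝ) (Real.log m / Real.log (Real.log (1 / ε))) / Real.log (1 / ε)) + C :=
  cube_ltf hc0 hc
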